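import Mathlib
import Pool.Agent.W894.HT.MDefs

set_option autoImplicit false

/-!
Splitting off the first letter of a word (part HEAD).
-/

namespace Pool.Agent.W215.HMHead

open Pool.Agent.W894.HT

theorem perm_key (W : List ℕ) (hW : W.Nodup) (h0 : W ≠ []) :
    W.permutations'.Perm (W.flatMap fun w => (W.erase w).permutations'.map (List.cons w)) := by
  rw [List.perm_ext_iff_of_nodup]
  · intro l
    rw [List.mem_permutations', List.mem_flatMap]
    constructor
    · intro hl
      cases l with
      | nil => exact absurd hl.symm.eq_nil h0
      | cons w l' =>
        have hw : w ∈ W := hl.subset (by simp)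
        refine ⟨w, hw, ?_⟩
        rw [List.mem_map]
        refine ⟨l', ?_, rfl⟩
        rw [List.mem_permutations']
        have := hl.erase w
        simpa using this
    · rintro ⟨w, hw, hl⟩
      rw [List.mem_map] at hl
      obtain ⟨l', hl', rfl⟩ := hl
      rw [List.mem_permutations'] at hl'
      exact (hl'.cons w).trans (List.perm_cons_erase hw).symm
  · exact (List.permutations_perm_permutations' W).nodup_iff.mp (List.nodup_permutations W hW)
  · rw [List.nodup_flatMap]
    constructor
    · intro w _
      exact ((List.permutations_perm_permutations' _).nodup_iff.mp (List.nodup_permutations _ (hW.erase w))).map List.cons_injective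
    · refine hW.imp_of_mem ?_
      intro a b _ _ hab
      rw [Function.onFun, List.disjoint_left]
      intro l h1 h2
      rw [List.mem_map] at h1 h2
      obtain ⟨l1, _, rfl⟩ := h1
      obtain ⟨l2, _, h3⟩ := h2
      exact hab (List.cons_eq_cons.mp h3).1.symm

theorem sum_fm {α A : Type} [CommRing A] (L : List α) (g : α → List (List ℕ)) (f : List ℕ → A) :
    ((L.flatMap g).map f).sum = (L.map fun x => ((g x).map f).sum).sum := by
  induction L with
  | nil => simp
  | cons a L ih => simp [List.flatMap_cons, ih]

theorem sum_ite_add {A : Type} [CommRing A] (L : List (List ℕ)) (p : Prop) [Decidable p]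
    (f g : List ℕ → A) (c : A) :
    (L.map fun l => (if p then f l else 0) + c * g l).sum =
      (if p then (L.map f).sum else 0) + c * (L.map g).sum := by
  induction L with
  | nil => simp
  | cons a L ih =>
    simp only [List.map_cons, List.sum_cons, ih]
    split_ifs <;> ring

theorem main : S_HEAD := by
  intro A _ φ fin W x κ hW h0
  rw [((perm_key W hW h0).map _).sum_eq, sum_fm]
  congr 1
  refine List.map_congr_left fun w _ => ?_
  rw [List.map_map, ← sum_ite_add]
  rfl

end Pool.Agent.W215.HMHead
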