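import Mathlib
import Pool.Agent.W894.HT.MLib
import Pool.Agent.W800.HMQstep

set_option autoImplicit false

/-!
Replacing the names by their indices (part IDX).
-/

namespace Pool.Agent.W215.HNIdx

open Pool.Agent.W894.HT

theorem idx_iff {N : Type} [DecidableEq N] {l : List N} {x y : N} (hx : x ∈ l) :
    l.idxOf x = l.idxOf y ↔ x = y := by
  constructor
  · intro h
    have h1 : l.idxOf x < l.length := List.idxOf_lt_length_of_mem hx
    have hy : y ∈ l := by
      rw [← List.idxOf_lt_length_iff, ← h]
      exact h1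
    exact (List.idxOf_inj hx).mp h
  · rintro rfl; rfl

theorem Ix_eq (n : ℕ) : Ix n = ((List.range n).map (· + 2)).reverse := by
  induction n with
  | zero => rfl
  | succ n ih =>
    change (n + 2) :: Ix n = _
    rw [List.range_succ, List.map_append, List.reverse_append, ih]
    rfl

theorem map_idx {N : Type} [DecidableEq N] (x e : N) (V : List N) (h : (e :: x :: V).Nodup) :
    V.map (fun u => (e :: x :: V).idxOf u) = (List.range V.length).map (· + 2) := by
  apply List.ext_getElem
  · simp
  · intro i h1 h2
    rw [List.getElem_map, List.getElem_map, List.getElem_range]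
    have hi : i < V.length := by simpa using h1
    have h3 : (e :: x :: V)[i + 2]'(by simpa using hi) = V[i] := rfl
    rw [← h3]
    exact h.idxOf_getElem _ _

theorem gw_idx {A N : Type} [CommRing A] [DecidableEq N] (E : List (N × N × Bool)) (W : List N)
    (hE : ∀ t ∈ E, t.1 ∈ W ∧ t.2.1 ∈ W) (u v : N) :
    gw (A := A) (E.map fun t => (W.idxOf t.1, W.idxOf t.2.1, t.2.2)) (W.idxOf u) (W.idxOf v) =
      gw (A := A) E u v := by
  unfold gw
  rw [List.map_map]
  congr 1
  refine List.map_congr_left fun t ht => ?_
  obtain ⟨h1, h2⟩ := hE t ht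
  simp only [Function.comp, idx_iff h1, idx_iff h2]

theorem main : S_IDX := by
  intro A N _ _ E x e V hnd hE
  obtain ⟨_, _, hf, hp, _⟩ := Pool.Agent.W800.HMQstep.mainS
  set W : List N := e :: x :: V with hW
  have hex : e ≠ x := by
    rintro rfl
    simp [hW] at hnd
  have h0 : W.idxOf e = 0 := by rw [hW, List.idxOf_cons_self]
  have h1 : W.idxOf x = 1 := by
    rw [hW, List.idxOf_cons_ne _ hex, List.idxOf_cons_self]
  set G : ℕ → ℕ → A := gw (E.map fun t => (W.idxOf t.1, W.idxOf t.2.1, t.2.2)) with hG
  have h2 := hf N ℕ A 1 G (fun u => W.idxOf u) x e V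
  simp only [h0, h1] at h2
  have h3 : (fun u v => G (W.idxOf u) (W.idxOf v)) = gw E := by
    funext u v
    exact gw_idx E W hE u v
  rw [h3, map_idx x e V hnd] at h2
  rw [← h2]
  apply hp
  rw [Ix_eq]
  exact List.reverse_perm _

end Pool.Agent.W215.HNIdx
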