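import Pool.Agent.W894.HT.MLib
import Pool.Agent.W131.HTPtm
import Pool.Agent.W349.HTPstg

/-!
# The tournament for the prime `p` is computable in polynomial time (part PTMP)
-/

set_option autoImplicit false

namespace Pool.Agent.W215.HNPtmp

open Pool.Agent.W894.HT Pool.Agent.NPC Pool.Agent.NPC.Poly
open Pool.Agent.NPC.Cnt
open Pool.Agent.W131.HTPtm

variable {α β : Type} [TEnc α] [TEnc β]

theorem gS_poly {k : α → ℕ} {b : α → Bool} {i : α → ℕ} {l : α → Lb} (hk : Poly k)
    (hb : Poly b) (hi : Poly i) (hl : Poly l) :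
    Poly (fun a => gS (k a) (b a) (i a) (l a)) :=
  cons (pair (rv_poly hk hb hi) (pair (rv_poly hk hb (succ hi)) (const false)))
    (cons (pair (rv_poly hk hb hi) (pair (yv_poly hk hb hi) (const true)))
      (cons (pair (yv_poly hk hb hi) (pair (xv_poly hk hb hi) (const false)))
        (cons (pair (xv_poly hk hb hi) (pair (rv_poly hk hb (succ hi)) (const false)))
          (cons (pair (sh_poly hl) (pair (xv_poly hk hb hi) (const false)))
            (cons (pair (sh_poly hl) (pair (yv_poly hk hb hi) (const true))) (const []))))))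

theorem rS_poly {k : α → ℕ} {b n : α → Bool} {L : α → List Lb} (hk : Poly k) (hb : Poly b)
    (hn : Poly n) (hL : Poly L) : Poly (fun a => rS (k a) (b a) (n a) (L a)) :=
  append (cons (pair (hub_poly hk) (pair (rv_poly hk hb (const 0)) hn))
      (flatMap (F := fun (a : α) (p : Lb × ℕ) => gS (k a) (b a) p.2 p.1) (zipIdx hL)
        (gS_poly (hk.comp (fst id)) (hb.comp (fst id)) (snd (snd id)) (fst (snd id)))))
    (cons (pair (rv_poly hk hb (length hL)) (pair (hub_poly (succ hk)) (const false)))
      (const []))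

theorem sE_poly {S : α → Stg} {τ : α → ℕ → Bool} (hS : Poly S)
    (hτ : Poly (fun x : α × ℕ => τ x.1 x.2)) : Poly (fun a => sE (S a) (τ a)) :=
  flatMap (F := fun (a : α) (p : (List Lb × List Lb) × ℕ) =>
      rS p.2 false false p.1.1 ++ rS p.2 true (τ a p.2) p.1.2) (zipIdx hS)
    (append (rS_poly (snd (snd id)) (const false) (const false) (fst (fst (snd id))))
      (rS_poly (snd (snd id)) (const true) (hτ.comp (pair (fst id) (snd (snd id))))
        (snd (fst (snd id)))))

theorem dum_poly {n : α → ℕ} (hn : UPoly n) : Poly (fun a => dum (n a)) :=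
  map (F := fun (_ : α) (i : ℕ) => ((5, i, 0, 0, false) : Nm)) hn.range
    (pair (const 5) (pair (snd id) (const (0, 0, false))))

theorem W0_poly (p : ℕ) {S : α → Stg} {τ : α → ℕ → Bool} (hS : Poly S)
    (hτ : Poly (fun x : α × ℕ => τ x.1 x.2)) : Poly (fun a => W0 p (S a) (τ a)) :=
  cons (hub_poly (length hS)) (cons (const (hub 0)) (append (restS_poly hS)
    (dum_poly (UPoly.mul (UPoly.const _) (UPoly.add (UPoly.length (restS_poly hS))
      (UPoly.mul (UPoly.const _) (UPoly.length (sE_poly hS hτ))))))))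

theorem foldr_idx [BEq β] [LawfulBEq β] [DecidableEq β] (x : β) (l : List β) :
    l.foldr (fun b s => if b = x then 0 else s + 1) 0 = l.idxOf x := by
  induction l with
  | nil => rfl
  | cons b l ih =>
    rw [List.foldr_cons, ih, List.idxOf_cons]
    by_cases h : b = x
    · subst h; simp
    · rw [if_neg h]
      have : (b == x) = false := by simpa using h
      rw [this]; rfl

theorem idxOf_poly [BEq β] [LawfulBEq β] {x : α → β} {l : α → List β} (hx : Poly x)
    (hl : Poly l) : Poly (fun a => (l a).idxOf (x a)) := by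
  classical
  obtain ⟨r, hr⟩ := hl.sz_le
  refine (foldr (s := fun _ => (0 : ℕ)) (F := fun a b s => if b = x a then 0 else s + 1) hl
    (const 0) (ite (decide_eq (fst (snd id)) (hx.comp (fst id))) (const 0)
      (succ (snd (snd id)))) (Polynomial.C 4 * r + Polynomial.C 1) ?_).congr fun a =>
        foldr_idx _ _
  intro a k _
  rw [foldr_idx]
  have h1 := sz_nat_le (((l a).drop k).idxOf (x a))
  have h2 := size_le_self (((l a).drop k).idxOf (x a))
  have h3 : ((l a).drop k).idxOf (x a) ≤ ((l a).drop k).length := List.idxOf_le_length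
  have h4 : ((l a).drop k).length ≤ (l a).length := by simp
  have h5 := length_lt_sz (l a)
  have h6 := hr a
  simp only [Polynomial.eval_add, Polynomial.eval_mul, Polynomial.eval_C]
  omega

theorem El_poly (p : ℕ) {S : α → Stg} {τ : α → ℕ → Bool} (hS : Poly S)
    (hτ : Poly (fun x : α × ℕ => τ x.1 x.2)) : Poly (fun a => El p (S a) (τ a)) :=
  map (F := fun (a : α) (t : Nm × Nm × Bool) =>
      ((W0 p (S a) (τ a)).idxOf t.1, (W0 p (S a) (τ a)).idxOf t.2.1, t.2.2)) (sE_poly hS hτ)
    (pair (idxOf_poly (fst (snd id)) ((W0_poly p hS hτ).comp (fst id)))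
      (pair (idxOf_poly (fst (snd (snd id))) ((W0_poly p hS hτ).comp (fst id)))
        (snd (snd (snd id)))))

theorem mm_upoly (p : ℕ) {S : α → Stg} {τ : α → ℕ → Bool} (hS : Poly S)
    (hτ : Poly (fun x : α × ℕ => τ x.1 x.2)) : UPoly (fun a => mm p (S a) (τ a)) :=
  UPoly.add (UPoly.of_le (sub (length (W0_poly p hS hτ)) (const 2))
      (UPoly.length (W0_poly p hS hτ)) fun _ => Nat.sub_le _ _)
    (UPoly.mul (UPoly.const _) (UPoly.length (El_poly p hS hτ)))

theorem zn_poly {b : α → Bool} {t : α → ℕ} (hb : Poly b) (ht : Poly t) :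
    Poly (fun a => zn (b a) (t a)) :=
  ite (decide_bool hb) ht (ite (decide_eq ht (const 0)) (const 1)
    (ite (decide_eq ht (const 1)) (const 0) ht))

theorem subR_poly {n0 i j : α → ℕ} (L : ℕ) {E : α → List (ℕ × ℕ × Bool)} (hn : Poly n0)
    (hE : Poly E) (hi : Poly i) (hj : Poly j) :
    Poly (fun a => subR (n0 a) L (E a) (i a) (j a)) := by
  have hjn : Poly (fun a => j a - n0 a) := sub hj hn
  have hin : Poly (fun a => i a - n0 a) := sub hi hn
  refine (and (decide_le hn hj) (optCases (o := fun a => (E a)[(j a - n0 a) / L]?)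
    (g := fun _ => false)
    (h := fun a (t : ℕ × ℕ × Bool) =>
      if i a < n0 a then (decide (i a = t.1) && decide (zn t.2.2 ((j a - n0 a) % L) = 0)) ||
        (decide (i a = t.2.1) && decide (zn t.2.2 ((j a - n0 a) % L) = L - 1))
      else decide ((i a - n0 a) / L = (j a - n0 a) / L) &&
        decide (zn t.2.2 ((i a - n0 a) % L) + 1 = zn t.2.2 ((j a - n0 a) % L)))
    (getElem? hE (div hjn (const L))) (const false) ?_)).congr fun a => ?_
  · have c1 : Poly (fun p : α × (ℕ × ℕ × Bool) => p.2.2.2) := snd (snd (snd id))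
    have c2 : Poly (fun p : α × (ℕ × ℕ × Bool) => (j p.1 - n0 p.1) % L) :=
      mod (hjn.comp (fst id)) (const L)
    have c3 : Poly (fun p : α × (ℕ × ℕ × Bool) => (i p.1 - n0 p.1) % L) :=
      mod (hin.comp (fst id)) (const L)
    have c4 : Poly (fun p : α × (ℕ × ℕ × Bool) => i p.1) := hi.comp (fst id)
    exact ite (decide_lt c4 (hn.comp (fst id)))
      (or (and (decide_eq c4 (fst (snd id))) (decide_eq (zn_poly c1 c2) (const 0)))
        (and (decide_eq c4 (fst (snd (snd id)))) (decide_eq (zn_poly c1 c2) (const (L - 1)))))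
      (and (decide_eq (div (hin.comp (fst id)) (const L)) (div (hjn.comp (fst id)) (const L)))
        (decide_eq (succ (zn_poly c1 c3)) (zn_poly c1 c2)))
  · unfold subR
    congr 1
    rcases (E a)[(j a - n0 a) / L]? with _ | ⟨u, w, neg⟩ <;> rfl

theorem subF_poly {n0 i j : α → ℕ} (L : ℕ) {E : α → List (ℕ × ℕ × Bool)} (hn : Poly n0)
    (hE : Poly E) (hi : Poly i) (hj : Poly j) :
    Poly (fun a => subF (n0 a) L (E a) (i a) (j a)) :=
  or (subR_poly L hn hE hi hj) (subR_poly L hn hE hj hi)

theorem bj_poly (s : ℕ) {p : α → ℕ} (hp : Poly p) : Poly (fun a => bj s (p a)) :=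
  div (sub hp (const 4)) (const s)

theorem ofs_poly (s : ℕ) {p : α → ℕ} (hp : Poly p) : Poly (fun a => ofs s (p a)) :=
  sub (sub hp (const 3)) (mul (const s) (bj_poly s hp))

theorem ix_poly (s : ℕ) {p : α → ℕ} (hp : Poly p) : Poly (fun a => ix s (p a)) :=
  ite (decide_eq hp (const 1)) (const (Option.some 0))
    (ite (decide_eq hp (const 3)) (const (Option.some 1))
      (ite (decide_and (decide_le (const 4) hp) (decide_eq (ofs_poly s hp) (const s)))
        (some (add (bj_poly s hp) (const 2))) (const none)))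

theorem Fp_poly (p : ℕ) {i j : α → ℕ} (hi : Poly i) (hj : Poly j) :
    Poly (fun a => Fp p (i a) (j a)) :=
  or (or (and (decide_eq hi (const 2)) (decide_eq hj (const (bsz p))))
      (and (decide_eq hj (const 2)) (decide_eq hi (const (bsz p)))))
    (and (const (decide (p = 3))) (or (and (decide_eq hi (const 2)) (decide_eq hj (const 5)))
      (and (decide_eq hj (const 2)) (decide_eq hi (const 5)))))

theorem exO_poly {ext : α → ℕ → ℕ → Bool} {o o' : α → Option ℕ}
    (he : Poly (fun x : α × ℕ × ℕ => ext x.1 x.2.1 x.2.2)) (ho : Poly o)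
    (ho' : Poly o') : Poly (fun a => exO (ext a) (o a) (o' a)) := by
  have h1 : Poly (fun p : α × ℕ => exO (ext p.1) (Option.some p.2) (o' p.1)) := by
    refine (optCases (o := fun p : α × ℕ => o' p.1) (g := fun _ => false)
      (h := fun p v => ext p.1 p.2 v) (ho'.comp (fst id)) (const false)
      (he.comp (pair (fst (fst id)) (pair (snd (fst id)) (snd id))))).congr fun p => ?_
    cases o' p.1 <;> rfl
  refine (optCases (o := o) (g := fun _ => false)
    (h := fun a u => exO (ext a) (Option.some u) (o' a)) ho (const false) h1).congr fun a => ?_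
  cases o a <;> cases o' a <;> rfl

theorem Fg_poly (s p : ℕ) {ext : α → ℕ → ℕ → Bool} {i j : α → ℕ}
    (he : Poly (fun x : α × ℕ × ℕ => ext x.1 x.2.1 x.2.2)) (hi : Poly i) (hj : Poly j) :
    Poly (fun a => Fg s (Fp p) (ext a) (i a) (j a)) :=
  or (exO_poly he (ix_poly s hi) (ix_poly s hj))
    (and (and (and (decide_le (const 4) hi) (decide_le (const 4) hj))
      (decide_eq (bj_poly s hi) (bj_poly s hj))) (Fp_poly p (ofs_poly s hi) (ofs_poly s hj)))

theorem TMg_poly (s p : ℕ) {ext : α → ℕ → ℕ → Bool} {m : α → ℕ}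
    (he : Poly (fun x : α × ℕ × ℕ => ext x.1 x.2.1 x.2.2)) (hm : UPoly m) :
    Poly (fun a => TMg s (Fp p) (ext a) (m a)) := by
  have hr : Poly (fun a => List.range (3 + s * m a)) :=
    (UPoly.add (UPoly.const 3) (UPoly.mul (UPoly.const s) hm)).range
  refine map (F := fun (a : α) (i : ℕ) => (List.range (3 + s * m a)).map fun j =>
    if i < j then !Fg s (Fp p) (ext a) (i + 1) (j + 1)
    else if j < i then Fg s (Fp p) (ext a) (i + 1) (j + 1) else false) hr
    (map (F := fun (x : α × ℕ) (j : ℕ) => if x.2 < j then !Fg s (Fp p) (ext x.1) (x.2 + 1) (j + 1)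
      else if j < x.2 then Fg s (Fp p) (ext x.1) (x.2 + 1) (j + 1) else false)
      (hr.comp (fst id)) ?_)
  have hF : Poly (fun x : (α × ℕ) × ℕ => Fg s (Fp p) (ext x.1.1) (x.1.2 + 1) (x.2 + 1)) :=
    Fg_poly s p (ext := fun x : (α × ℕ) × ℕ => ext x.1.1)
      (he.comp (pair (fst (fst (fst id))) (snd id))) (succ (snd (fst id))) (succ (snd id))
  exact ite (decide_lt (snd (fst id)) (snd id)) (not hF)
    (ite (decide_lt (snd id) (snd (fst id))) hF (const false))

theorem TMp_poly (p : ℕ) {S : α → Stg} {τ : α → ℕ → Bool} (hS : Poly S)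
    (hτ : Poly (fun x : α × ℕ => τ x.1 x.2)) : Poly (fun a => TMp p (S a) (τ a)) :=
  TMg_poly (bsz p) p (ext := fun a => subF (W0 p (S a) (τ a)).length (Lp p) (El p (S a) (τ a)))
    (subF_poly (Lp p) (length ((W0_poly p hS hτ).comp (fst id))) ((El_poly p hS hτ).comp (fst id))
      (fst (snd id)) (snd (snd id))) (mm_upoly p hS hτ)

theorem main : S_PTMP := by
  intro p
  refine TMp_poly p (S := stg) (τ := tau) Pool.Agent.W349.HTPstg.main ?_
  exact decide_lt (length (ddg_poly (map (l := fun x : CNF ℕ × ℕ => x.1.flatten)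
    (F := fun _ q => Prod.snd q) (flatten (fst id)) (snd (snd id))))) (snd id)

end Pool.Agent.W215.HNPtmp
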