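import Pool.Agent.W894.HT.MLib
import Pool.Agent.W352.HTCh3
import Pool.Agent.H579R2.Spt.VV3

/-!
# Project HT, part RP: if `Mod_p P` is in `P` then `NP` is in `RP`
-/

set_option autoImplicit false

namespace Pool.Agent.W215.HNRp

open Pool.Agent.NPC Pool.Agent.NPC.Cnt Pool.Agent.W894.HT
open Pool.Agent.H579R2.Spt (ver ver_iff ver_poly inRP_of_unique)
open Pool.Agent.NPC.W352HTCh3 (polyV)

theorem bits_poly' {α : Type} [TEnc α] : Poly (fun a : α => bits a) :=
  Pool.Agent.NPC.Cnt.poly_enc.comp (f := fun a : α => toT a) NPC.Poly.id.toT'

theorem main (p : ℕ) (hp : 2 ≤ p) (h : ∀ L, InModP p L → Pool.Agent.W894.HT.InP L) :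
    ∀ L, InNP L → Pool.Agent.H579R2.Spt.InRP L := by
  intro L hL
  refine inRP_of_unique (fun V0 hV0 q => ?_) hL
  -- the relation
  obtain ⟨R, hR⟩ : ∃ R : List Bool × ℕ × Bool → List Bool → Bool, R = fun a w =>
      ver V0 q a.1 w && (bif a.2.2 then decide (a.2.1 < w.length) else w.getD a.2.1 false) :=
    ⟨_, rfl⟩
  have hR2 : ∀ a w, R a w = true → ver V0 q a.1 w = true ∧
      (bif a.2.2 then decide (a.2.1 < w.length) else w.getD a.2.1 false) = true := by
    intro a w h1
    rw [hR] at h1
    simpa only [Bool.and_eq_true] using h1
  have hRP : Poly (fun x : (List Bool × ℕ × Bool) × List Bool => R x.1 x.2) := by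
    rw [hR]
    refine NPC.Poly.and ((ver_poly hV0 q).comp (NPC.Poly.pair (NPC.Poly.fst (NPC.Poly.fst NPC.Poly.id))
      (NPC.Poly.snd NPC.Poly.id))) (NPC.Poly.cond (NPC.Poly.snd (NPC.Poly.snd (NPC.Poly.fst NPC.Poly.id)))
        (NPC.Poly.decide_lt (NPC.Poly.fst (NPC.Poly.snd (NPC.Poly.fst NPC.Poly.id))) (NPC.Poly.length (NPC.Poly.snd NPC.Poly.id)))
        (NPC.Poly.getD (NPC.Poly.snd NPC.Poly.id) (NPC.Poly.fst (NPC.Poly.snd (NPC.Poly.fst NPC.Poly.id)))
          (NPC.Poly.const false)))
  have hsize : ∀ a c, R a c = true → sz c ≤ (Polynomial.C 4 * q + Polynomial.C 1).eval (sz a) := by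
    intro a c hc
    rw [hR] at hc
    simp only [Bool.and_eq_true] at hc
    have h1 := (ver_iff.1 hc.1).1
    have h2 := sz_listBool_le c
    have h3 : a.1.length ≤ sz a := by
      have e1 := length_lt_sz a.1
      have e2 : sz a.1 ≤ sz a := by
        obtain ⟨a1, a2⟩ := a
        show sz a1 ≤ sz (a1, a2)
        rw [sz_pair]
        omega
      omega
    have h4 : q.eval a.1.length ≤ q.eval (sz a) := eval_mono q h3
    simp only [Polynomial.eval_add, Polynomial.eval_mul, Polynomial.eval_C]
    omega
  have hSP := sharpP_typed R hRP _ hsize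
  obtain ⟨G, hG, hGL⟩ := h _ ⟨_, hSP, fun x => Iff.rfl⟩
  -- queries
  have hq : ∀ (x : List Bool) (i : ℕ) (b : Bool), G (bits (x, i, b)) = [true] ↔
      Nat.card {c : List Bool // R (x, i, b) c = true} % p ≠ 0 := by
    intro x i b
    rw [← hGL (bits (x, i, b)), ← strFn_bits (fun a => Nat.card {c : List Bool // R a c = true})
      (x, i, b)]
    rfl
  have hGP : Poly (fun a : List Bool × ℕ × Bool => decide (G (bits a) = [true])) :=
    NPC.Poly.decide_eq (polyV hG bits_poly') (NPC.Poly.const [true])
  refine ⟨fun x => ((List.range (q.eval x.length)).filter fun i =>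
      decide (G (bits (x, i, true)) = [true])).map fun i =>
        decide (G (bits (x, i, false)) = [true]), ?_, ?_⟩
  · refine (Pool.Agent.NPC.PIso.poly_iff (f := _)).1 ?_
    refine NPC.Poly.map (F := fun (x : List Bool) (i : ℕ) => decide (G (bits (x, i, false)) = [true]))
      (NPC.Poly.filter (p := fun (x : List Bool) (i : ℕ) => decide (G (bits (x, i, true)) = [true]))
        (UPoly.eval (UPoly.length NPC.Poly.id) q).range ?_) ?_
    · exact hGP.comp (NPC.Poly.pair (NPC.Poly.fst NPC.Poly.id) (NPC.Poly.pair (NPC.Poly.snd NPC.Poly.id)
        (NPC.Poly.const true)))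
    · exact hGP.comp (NPC.Poly.pair (NPC.Poly.fst NPC.Poly.id) (NPC.Poly.pair (NPC.Poly.snd NPC.Poly.id)
        (NPC.Poly.const false)))
  · intro x w hw huniq
    have hcard : ∀ (i : ℕ) (b : Bool), Nat.card {c : List Bool // R (x, i, b) c = true} =
        if (bif b then decide (i < w.length) else w.getD i false) = true then 1 else 0 := by
      intro i b
      split_ifs with hb
      · rw [Nat.card_eq_one_iff_unique]
        refine ⟨⟨fun c c' => ?_⟩, ⟨⟨w, ?_⟩⟩⟩
        · apply Subtype.ext
          have e1 : c.1 = w := huniq _ (hR2 _ _ c.2).1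
          have e2 : c'.1 = w := huniq _ (hR2 _ _ c'.2).1
          rw [e1, e2]
        · rw [hR]
          simp only [Bool.and_eq_true]
          exact ⟨hw, hb⟩
      · rw [Nat.card_eq_zero]
        left
        refine ⟨fun c => ?_⟩
        have h1 := hR2 _ _ c.2
        have h2 : c.1 = w := huniq _ h1.1
        rw [h2] at h1
        exact hb h1.2
    have hgt : ∀ i : ℕ, decide (G (bits (x, i, true)) = [true]) = decide (i < w.length) := by
      intro i
      rw [decide_eq_decide, hq, hcard]
      simp only [cond_true, decide_eq_true_eq]
      split_ifs with hi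
      · simp only [hi, iff_true]
        rw [Nat.mod_eq_of_lt (by omega)]
        exact one_ne_zero
      · simp [hi]
    have hgf : ∀ i : ℕ, decide (G (bits (x, i, false)) = [true]) = w.getD i false := by
      intro i
      have h1 : G (bits (x, i, false)) = [true] ↔ w.getD i false = true := by
        rw [hq, hcard]
        simp only [cond_false]
        split_ifs with hi
        · simp only [hi, iff_true]
          rw [Nat.mod_eq_of_lt (by omega)]
          exact one_ne_zero
        · exact ⟨fun h0 => absurd (Nat.zero_mod p) h0, fun h0 => absurd h0 hi⟩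
      rcases hb : w.getD i false with _ | _
      · rw [decide_eq_false_iff_not, h1, hb]
        simp
      · rw [decide_eq_true_iff, h1, hb]
    have hlen : w.length ≤ q.eval x.length := (ver_iff.1 hw).1
    have hfil : ((List.range (q.eval x.length)).filter fun i => decide (i < w.length)) =
        List.range w.length := by
      have key : ∀ m n : ℕ, m ≤ n →
          ((List.range n).filter (fun k => decide (k < m))) = List.range m := by
        intro m n hmn
        induction n with
        | zero =>
          have : m = 0 := by omega
          subst this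
          rfl
        | succ n ih =>
          rw [List.range_succ, List.filter_append]
          rcases Nat.lt_or_ge n m with h1 | h1
          · have h2 : m = n + 1 := by omega
            subst h2
            rw [List.range_succ]
            congr 1
            · rw [List.filter_eq_self]
              intro a ha
              rw [List.mem_range] at ha
              simp only [decide_eq_true_eq]
              omega
            · simp
          · rw [ih h1]
            have : ¬ n < m := by omega
            simp [this]
      exact key _ _ hlen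
    show (((List.range (q.eval x.length)).filter fun i =>
      decide (G (bits (x, i, true)) = [true])).map fun i =>
        decide (G (bits (x, i, false)) = [true])) = w
    simp only [hgt, hgf]
    rw [hfil]
    apply List.ext_getElem
    · simp
    · intro i h1 h2
      rw [List.getElem_map, List.getElem_range, List.getD_eq_getElem?_getD,
        List.getElem?_eq_getElem h2]
      rfl

end Pool.Agent.W215.HNRp
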