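import Pool.Agent.W894.HT.Defs

/-! HT-PSTEP: eliminating one possible interior vertex of the paths. -/

set_option autoImplicit false

namespace Pool.Agent.W215.HTPstep

open Pool.Agent.W894.HT

theorem wfst {A : Type} [CommRing A] (φ : ℕ → ℕ → A) (e v : ℕ) (l : List ℕ) (x : ℕ) :
    (wtp (A := DualNumber A) (dl φ v) e x l).fst = wtp φ e x l := by
  induction l generalizing x with
  | nil => simp [wtp, dl]
  | cons u l ih =>
    simp only [wtp, TrivSqZeroExt.fst_mul, ih]
    congr 1
    simp [dl]

theorem wsnd {A : Type} [CommRing A] (φ : ℕ → ℕ → A) (e v : ℕ) (l : List ℕ) (x : ℕ) :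
    ((l.permutations'Aux v).map fun l' => wtp φ e x l').sum =
      (wtp (A := DualNumber A) (dl φ v) e x l).snd := by
  induction l generalizing x with
  | nil => simp [wtp, dl]
  | cons u l ih =>
    rw [List.permutations'Aux, List.map_cons, List.sum_cons, List.map_map]
    have h1 : (List.map ((fun l' => wtp φ e x l') ∘ List.cons u) (l.permutations'Aux v)).sum =
        φ x u * ((l.permutations'Aux v).map fun l' => wtp φ e u l').sum := by
      rw [← List.sum_map_mul_left]
      rfl
    rw [h1, ih]
    have h2 : (dl φ v x u).fst = φ x u := by simp [dl]
    have h3 : (dl φ v x u).snd = φ x v * φ v u := by simp [dl]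
    simp only [wtp, TrivSqZeroExt.snd_mul, wfst, h2, h3, smul_eq_mul, MulOpposite.smul_eq_mul_unop,
      MulOpposite.unop_op]
    ring

theorem sum_flatMap' {A : Type} [CommRing A] {α β : Type} (L : List α) (g : α → List β)
    (f : β → A) : ((L.flatMap g).map f).sum = (L.map fun a => ((g a).map f).sum).sum := by
  induction L with
  | nil => simp
  | cons a L ih => simp [List.flatMap_cons, ih]

theorem fst_sum' {A : Type} [CommRing A] {α : Type} (L : List α) (f : α → DualNumber A) :
    (L.map f).sum.fst = (L.map fun a => (f a).fst).sum := by
  induction L with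
  | nil => simp
  | cons a L ih => simp [ih]

theorem snd_sum' {A : Type} [CommRing A] {α : Type} (L : List α) (f : α → DualNumber A) :
    (L.map f).sum.snd = (L.map fun a => (f a).snd).sum := by
  induction L with
  | nil => simp
  | cons a L ih => simp [ih]

theorem main : S_PSTEP := by
  intro A _ φ x e v V
  unfold PP
  rw [List.sublists'_cons, List.map_append, List.sum_append, List.map_map, fst_sum', snd_sum']
  congr 1
  · apply congrArg List.sum
    apply List.map_congr_left
    intro S _
    rw [fst_sum']
    apply congrArg List.sum
    apply List.map_congr_left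
    intro l _
    rw [wfst]
  · apply congrArg List.sum
    apply List.map_congr_left
    intro S _
    rw [snd_sum']
    simp only [Function.comp_apply]
    rw [List.permutations', sum_flatMap']
    apply congrArg List.sum
    apply List.map_congr_left
    intro l _
    rw [wsnd]

end Pool.Agent.W215.HTPstep
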