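import Pool.Agent.W792.LL.Stm

/-! Project LL: the phase lemma (helper215). -/

set_option autoImplicit false

namespace Pool.Agent.W215.LLPh

open MeasureTheory Filter Pool.Agent.W792.LL
open scoped Topology

noncomputable section

local instance : MeasureSpace UnitAddCircle := ⟨AddCircle.haarAddCircle⟩

local instance : Measure.IsAddHaarMeasure (volume : Measure UnitAddCircle) :=
  inferInstanceAs (Measure.IsAddHaarMeasure AddCircle.haarAddCircle)

local instance : IsProbabilityMeasure (volume : Measure UnitAddCircle) :=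
  inferInstanceAs (IsProbabilityMeasure AddCircle.haarAddCircle)

theorem coeff_sub {d : ℕ} (m m' : C(UnitAddTorus (Fin d), ℂ)) (x : Fin d → ℤ) :
    UnitAddTorus.mFourierCoeff (m - m' : C(UnitAddTorus (Fin d), ℂ)) x =
      UnitAddTorus.mFourierCoeff m x - UnitAddTorus.mFourierCoeff m' x := by
  change (∫ t : UnitAddTorus (Fin d), UnitAddTorus.mFourier (-x) t • (m - m') t) =
    (∫ t : UnitAddTorus (Fin d), UnitAddTorus.mFourier (-x) t • m t) -
    ∫ t : UnitAddTorus (Fin d), UnitAddTorus.mFourier (-x) t • m' t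
  rw [← integral_sub]
  · congr 1
    funext t
    rw [ContinuousMap.sub_apply, smul_sub]
  · have hc : Continuous (fun t => UnitAddTorus.mFourier (-x) t • m t) := by fun_prop
    exact hc.integrable_of_hasCompactSupport (HasCompactSupport.of_compactSpace _)
  · have hc : Continuous (fun t => UnitAddTorus.mFourier (-x) t • m' t) := by fun_prop
    exact hc.integrable_of_hasCompactSupport (HasCompactSupport.of_compactSpace _)

/-- the homogeneous polynomial -/
def DD {Γ : Type} [DecidableEq Γ] (n : ℕ) (F : Finset Γ) (a : (Fin n → Γ) → ℂ) (v : Γ → ℝ) : ℂ :=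
  ∑ w ∈ Fintype.piFinset (fun _ : Fin n => F), a w * ∏ i, cay (v (w i))

theorem DD_meas {Γ : Type} [DecidableEq Γ] (hc : Continuous cay) (n : ℕ) (F : Finset Γ)
    (a : (Fin n → Γ) → ℂ) : Measurable (DD n F a) := by
  unfold DD
  have hm : Measurable cay := hc.measurable
  refine Finset.measurable_sum _ fun w _ => ?_
  refine Measurable.const_mul ?_ _
  refine Finset.measurable_prod _ fun i _ => ?_
  exact hm.comp (measurable_pi_apply _)

theorem DD_bd {Γ : Type} [DecidableEq Γ] (h1 : ∀ v, ‖cay v‖ = 1) (n : ℕ) (F : Finset Γ)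
    (a : (Fin n → Γ) → ℂ) (v : Γ → ℝ) :
    ‖DD n F a v‖ ≤ ∑ w ∈ Fintype.piFinset (fun _ : Fin n => F), ‖a w‖ := by
  unfold DD
  refine (norm_sum_le _ _).trans (Finset.sum_le_sum fun w _ => ?_)
  rw [norm_mul, norm_prod]
  have : ∏ i, ‖cay (v (w i))‖ = 1 := by
    simp [h1]
  rw [this, mul_one]

theorem DD_int {Γ : Type} [DecidableEq Γ] (h1 : ∀ v, ‖cay v‖ = 1) (hc : Continuous cay) (n : ℕ)
    (F : Finset Γ) (a : (Fin n → Γ) → ℂ) :
    Integrable (fun v => ‖DD n F a v‖) (Pm Γ) := by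
  refine Integrable.of_bound ((DD_meas hc n F a).norm.aestronglyMeasurable)
    (∑ w ∈ Fintype.piFinset (fun _ : Fin n => F), ‖a w‖) (ae_of_all _ fun v => ?_)
  rw [norm_norm]
  exact DD_bd h1 n F a v

theorem DD_int2 {Γ : Type} [DecidableEq Γ] (h1 : ∀ v, ‖cay v‖ = 1) (hc : Continuous cay) (n : ℕ)
    (F : Finset Γ) (a : (Fin n → Γ) → ℂ) :
    Integrable (fun v => ‖DD n F a v‖ ^ 2) (Pm Γ) := by
  refine Integrable.of_bound (((DD_meas hc n F a).norm.pow_const 2).aestronglyMeasurable)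
    ((∑ w ∈ Fintype.piFinset (fun _ : Fin n => F), ‖a w‖) ^ 2) (ae_of_all _ fun v => ?_)
  rw [norm_pow, norm_norm]
  exact pow_le_pow_left₀ (norm_nonneg _) (DD_bd h1 n F a v) 2

/-- mean bound from the mean square bound -/
theorem DD_mean {Γ : Type} [DecidableEq Γ] (h1 : ∀ v, ‖cay v‖ = 1) (hc : Continuous cay) (n : ℕ)
    (F : Finset Γ) (a : (Fin n → Γ) → ℂ) (t : ℝ) (ht : 0 < t)
    (h2 : ∫ v, ‖DD n F a v‖ ^ 2 ∂(Pm Γ) ≤ t ^ 2) :
    ∫ v, ‖DD n F a v‖ ∂(Pm Γ) ≤ t := by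
  have h3 : ∫ v, ‖DD n F a v‖ ∂(Pm Γ) ≤
      ∫ v, (1 / (2 * t) * ‖DD n F a v‖ ^ 2 + t / 2) ∂(Pm Γ) := by
    refine integral_mono (DD_int h1 hc n F a)
      (((DD_int2 h1 hc n F a).const_mul _).add (integrable_const _)) fun v => ?_
    have hx := norm_nonneg (DD n F a v)
    generalize ‖DD n F a v‖ = x at hx
    have : 1 / (2 * t) * x ^ 2 + t / 2 - x = (x - t) ^ 2 / (2 * t) := by
      field_simp
      ring
    have h4 : 0 ≤ (x - t) ^ 2 / (2 * t) := by positivity
    simp only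
    linarith
  rw [integral_add ((DD_int2 h1 hc n F a).const_mul _) (integrable_const _),
    integral_const_mul, integral_const] at h3
  simp only [probReal_univ, smul_eq_mul, one_mul] at h3
  have h5 : 1 / (2 * t) * ∫ v, ‖DD n F a v‖ ^ 2 ∂(Pm Γ) ≤ 1 / (2 * t) * t ^ 2 :=
    mul_le_mul_of_nonneg_left h2 (by positivity)
  have h6 : 1 / (2 * t) * t ^ 2 = t / 2 := by
    field_simp
  linarith

theorem main : S_OPR → S_DIA → S_ZF → S_MZ → S_CAY → S_ORD → S_PATH → S_EXP → S_TRIG → S_PH := by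
  intro hO _ hZ _ hC hOrd hP hE hT q hq0 hq1 δ hδ
  obtain ⟨hc1, hcc, -, -⟩ := hC
  set q' : ℝ := (1 + q) / 2 with hq'
  have hq'0 : 0 ≤ q' := by rw [hq']; linarith
  have hq'1 : q' < 1 := by rw [hq']; linarith
  have hqp : 0 < 1 - q' := by linarith
  -- choice of `n₀`
  obtain ⟨k, hk⟩ := exists_pow_lt_of_lt_one (show 0 < δ / 8 * (1 - q') by positivity) hq'1
  have hn0 : 2 * (q' ^ (k + 1) / (1 - q')) ≤ δ / 4 := by
    have h1 : q' ^ (k + 1) ≤ q' ^ k := pow_le_pow_of_le_one hq'0 hq'1.le (by omega)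
    have h2 : q' ^ (k + 1) / (1 - q') ≤ δ / 8 := by
      rw [div_le_iff₀ hqp]
      linarith
    linarith
  set C1 : ℝ := ∑ n ∈ Finset.range (k + 1), Real.sqrt (n.factorial : ℝ) * ((n : ℝ) + 1) * 3
    with hC1
  have hC1n : 0 ≤ C1 := Finset.sum_nonneg fun n _ => by positivity
  set e : ℝ := min (min 1 (δ * (1 - q') ^ 2 / 16)) (δ / (4 * (C1 + 1))) with he
  have he0 : 0 < e := by
    rw [he]
    refine lt_min (lt_min one_pos (by positivity)) (by positivity)
  have he2 : e ≤ δ * (1 - q') ^ 2 / 16 := (min_le_left _ _).trans (min_le_right _ _)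
  have he3 : e ≤ δ / (4 * (C1 + 1)) := min_le_right _ _
  refine ⟨e, he0, ?_⟩
  intro d m m' hm hm' hmm
  set τ : ℝ := min e ((1 - q) / 2) with hτ
  have hτ0 : 0 < τ := lt_min he0 (by linarith)
  have hτe : τ ≤ e := min_le_left _ _
  have hτq : τ ≤ (1 - q) / 2 := min_le_right _ _
  obtain ⟨h, hh⟩ := (hT d).1 m τ hτ0
  obtain ⟨h', hh'⟩ := (hT d).1 m' τ hτ0
  have hnt : ‖trig h‖ ≤ q' := by
    have : ‖trig h‖ ≤ ‖trig h - m‖ + ‖m‖ := by
      simpa using norm_add_le (trig h - m) m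
    rw [hq']; linarith
  have hnt' : ‖trig h'‖ ≤ q' := by
    have : ‖trig h'‖ ≤ ‖trig h' - m'‖ + ‖m'‖ := by
      simpa using norm_add_le (trig h' - m') m'
    rw [hq']; linarith
  have hmq : ‖m‖ ≤ q' := by rw [hq']; linarith
  have hmq' : ‖m'‖ ≤ q' := by rw [hq']; linarith
  -- coefficients
  have hco : ∀ (g : (Fin d → ℤ) →₀ ℂ) (μ : C(UnitAddTorus (Fin d), ℂ)), ‖trig g - μ‖ ≤ τ →
      ∀ x, ‖g x - UnitAddTorus.mFourierCoeff μ x‖ ≤ τ := by
    intro g μ hg x
    rw [← (hT d).2 g x, ← coeff_sub]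
    exact ((hO d (trig g - μ) 0).2.2.2.2.2.2.1 x).trans hg
  have hdiff : ∀ x, ‖h x - h' x‖ ≤ 3 * e := by
    intro x
    have a1 := hco h m hh x
    have a2 := hco h' m' hh' x
    have a3 := hmm x
    have e1 : h x - h' x = (h x - UnitAddTorus.mFourierCoeff m x) +
        (UnitAddTorus.mFourierCoeff m x - UnitAddTorus.mFourierCoeff m' x) -
        (h' x - UnitAddTorus.mFourierCoeff m' x) := by ring
    rw [e1]
    refine (norm_sub_le _ _).trans ?_
    have := norm_add_le (h x - UnitAddTorus.mFourierCoeff m x)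
      (UnitAddTorus.mFourierCoeff m x - UnitAddTorus.mFourierCoeff m' x)
    linarith
  have hsq : ∀ g : (Fin d → ℤ) →₀ ℂ, ‖trig g‖ ≤ q' → ∑ y ∈ g.support, ‖g y‖ ^ 2 ≤ 1 := by
    intro g hg
    obtain ⟨-, -, -, -, -, -, -, h8, h9⟩ := hO d (trig g) 0
    have e1 : ∑ y ∈ g.support, ‖g y‖ ^ 2 =
        ∑ y ∈ g.support, ‖UnitAddTorus.mFourierCoeff (trig g) y‖ ^ 2 := by
      refine Finset.sum_congr rfl fun y _ => ?_
      rw [(hT d).2 g y]
    rw [e1]
    refine (h8.sum_le_tsum _ fun y _ => by positivity).trans (h9.trans ?_)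
    have := norm_nonneg (trig g)
    nlinarith
  -- path expansions
  choose F hF using fun n => hE d h n
  choose F' hF' using fun n => hE d h' n
  set G : ℕ → Finset (Fin d → ℤ) := fun n => F n ∪ F' n with hG
  set a : (n : ℕ) → (Fin n → (Fin d → ℤ)) → ℂ := fun n w => pth h n 0 w - pth h' n 0 w with ha
  have hterm : ∀ n, ∫ v, ‖DD n (G n) (a n) v‖ ∂(Pm (Fin d → ℤ)) ≤
      Real.sqrt (n.factorial : ℝ) * ((n : ℝ) + 1) * 3 * e := by
    intro n
    refine DD_mean hc1 hcc n (G n) (a n) _ (by positivity) ?_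
    have b1 := hOrd (Fin d → ℤ) n (G n) (a n)
    have b2 := hP (Fin d → ℤ) h h' (3 * e) (by positivity) (hsq h hnt) (hsq h' hnt') hdiff n
      (G n) 0
    refine b1.trans ?_
    have b3 : (n.factorial : ℝ) * ∑ w ∈ Fintype.piFinset (fun _ : Fin n => G n), ‖a n w‖ ^ 2 ≤
        (n.factorial : ℝ) * ((n : ℝ) * (3 * e)) ^ 2 :=
      mul_le_mul_of_nonneg_left b2 (by positivity)
    refine b3.trans ?_
    have b4 : (Real.sqrt (n.factorial : ℝ) * ((n : ℝ) + 1) * 3 * e) ^ 2 =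
        (n.factorial : ℝ) * (((n : ℝ) + 1) * (3 * e)) ^ 2 := by
      have := Real.sq_sqrt (show (0 : ℝ) ≤ (n.factorial : ℝ) by positivity)
      calc (Real.sqrt (n.factorial : ℝ) * ((n : ℝ) + 1) * 3 * e) ^ 2
          = (Real.sqrt (n.factorial : ℝ)) ^ 2 * (((n : ℝ) + 1) * (3 * e)) ^ 2 := by ring
        _ = _ := by rw [this]
    rw [b4]
    refine mul_le_mul_of_nonneg_left ?_ (by positivity)
    refine pow_le_pow_left₀ (by positivity) ?_ 2
    have : (0 : ℝ) ≤ 3 * e := by positivity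
    nlinarith
  -- pointwise bound
  have hpt : ∀ v : (Fin d → ℤ) → ℝ,
      ‖Zf m (fun x => cay (v x)) - Zf m' (fun x => cay (v x))‖ ≤
      (2 * (τ / (1 - q') ^ 2) + 2 * (q' ^ (k + 1) / (1 - q'))) +
        ∑ n ∈ Finset.range (k + 1), ‖DD n (G n) (a n) v‖ := by
    intro v
    have hcb : ∀ x : Fin d → ℤ, ‖(fun x => cay (v x)) x‖ ≤ 1 := fun x => (hc1 (v x)).le
    obtain ⟨-, -, z1, z2, -⟩ := hZ d (trig h) m (fun x => cay (v x)) q' hq'0 hq'1 hnt hmq hcb
    obtain ⟨-, -, z1', z2', -⟩ := hZ d (trig h') m' (fun x => cay (v x)) q' hq'0 hq'1 hnt' hmq' hcb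
    have z3 := z2 k
    have z3' := z2' k
    have s1 : ∑ n ∈ Finset.range (k + 1), ((opr (trig h) * dia fun x => cay (v x)) ^ n)
          (lp.single 2 (0 : Fin d → ℤ) (1 : ℂ)) 0 -
        ∑ n ∈ Finset.range (k + 1), ((opr (trig h') * dia fun x => cay (v x)) ^ n)
          (lp.single 2 (0 : Fin d → ℤ) (1 : ℂ)) 0 =
        ∑ n ∈ Finset.range (k + 1), DD n (G n) (a n) v := by
      rw [← Finset.sum_sub_distrib]
      refine Finset.sum_congr rfl fun n _ => ?_
      rw [hF n (G n) Finset.subset_union_left _ hcb, hF' n (G n) Finset.subset_union_right _ hcb,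
        ← Finset.sum_sub_distrib]
      unfold DD
      refine Finset.sum_congr rfl fun w _ => ?_
      rw [ha]
      ring
    have s2 : ‖∑ n ∈ Finset.range (k + 1), DD n (G n) (a n) v‖ ≤
        ∑ n ∈ Finset.range (k + 1), ‖DD n (G n) (a n) v‖ := norm_sum_le _ _
    have z4 : ‖trig h - m‖ / (1 - q') ^ 2 ≤ τ / (1 - q') ^ 2 :=
      div_le_div_of_nonneg_right hh (by positivity)
    have z4' : ‖trig h' - m'‖ / (1 - q') ^ 2 ≤ τ / (1 - q') ^ 2 :=
      div_le_div_of_nonneg_right hh' (by positivity)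
    rw [← s1] at s2
    generalize ∑ n ∈ Finset.range (k + 1), ((opr (trig h) * dia fun x => cay (v x)) ^ n)
          (lp.single 2 (0 : Fin d → ℤ) (1 : ℂ)) 0 = S at z3 s2
    generalize ∑ n ∈ Finset.range (k + 1), ((opr (trig h') * dia fun x => cay (v x)) ^ n)
          (lp.single 2 (0 : Fin d → ℤ) (1 : ℂ)) 0 = S' at z3' s2
    generalize Zf m (fun x => cay (v x)) = A at *
    generalize Zf m' (fun x => cay (v x)) = A' at *
    generalize Zf (trig h) (fun x => cay (v x)) = B at *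
    generalize Zf (trig h') (fun x => cay (v x)) = B' at *
    have e1 : A - A' = -(B - A) + (B - S) + (S - S') - (B' - S') + (B' - A') := by ring
    rw [e1]
    have t1 := norm_add_le (-(B - A) + (B - S) + (S - S') - (B' - S')) (B' - A')
    have t2 := norm_sub_le (-(B - A) + (B - S) + (S - S')) (B' - S')
    have t3 := norm_add_le (-(B - A) + (B - S)) (S - S')
    have t4 := norm_add_le (-(B - A)) (B - S)
    rw [norm_neg] at t4
    linarith
  have hgint : Integrable (fun v : (Fin d → ℤ) → ℝ =>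
      (2 * (τ / (1 - q') ^ 2) + 2 * (q' ^ (k + 1) / (1 - q'))) +
        ∑ n ∈ Finset.range (k + 1), ‖DD n (G n) (a n) v‖) (Pm (Fin d → ℤ)) :=
    (integrable_const _).add (integrable_finsetSum _ fun n _ => DD_int hc1 hcc n (G n) (a n))
  have hint := integral_mono_of_nonneg (ae_of_all (Pm (Fin d → ℤ)) fun v => norm_nonneg
    (Zf m (fun x => cay (v x)) - Zf m' (fun x => cay (v x)))) hgint (ae_of_all _ hpt)
  refine hint.trans ?_
  rw [integral_add (integrable_const _) (integrable_finsetSum _ fun n _ =>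
    DD_int hc1 hcc n (G n) (a n)), integral_const, integral_finsetSum _ fun n _ =>
    DD_int hc1 hcc n (G n) (a n)]
  simp only [probReal_univ, smul_eq_mul, one_mul]
  have f1 : ∑ n ∈ Finset.range (k + 1), ∫ v, ‖DD n (G n) (a n) v‖ ∂(Pm (Fin d → ℤ)) ≤ C1 * e := by
    rw [hC1, Finset.sum_mul]
    exact Finset.sum_le_sum fun n _ => hterm n
  have f2 : C1 * e ≤ δ / 4 := by
    calc C1 * e ≤ (C1 + 1) * (δ / (4 * (C1 + 1))) :=
          mul_le_mul (by linarith) he3 he0.le (by positivity)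
      _ = δ / 4 := by field_simp
  have f3 : τ / (1 - q') ^ 2 ≤ δ / 16 := by
    rw [div_le_iff₀ (by positivity)]
    linarith
  linarith

end

end Pool.Agent.W215.LLPh
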